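import Pool.Agent.U593.AE.DiscMain

/-!
# An arc of the curve suffices if the integral is analytic on the whole plane
-/

set_option autoImplicit false

open Filter Topology Complex Set

namespace Pool.Agent.U593.AE

variable {c c' : ℝ → ℂ} {f : ℂ → ℝ}

/-- one tangent line -/
theorem line_round {p v : ℂ} (hv : v ≠ 0) (han : ∀ z, AnalyticAt ℝ f z)
    (hr : ∀ δ > 0, ∃ R : ℝ, ∀ z w : ℂ, R ≤ ‖z‖ → f z = f w → |‖z‖ - ‖w‖| < δ)
    (hp : ProjectiveAt f p v) :
    inner ℝ p v = 0 ∧ ∀ s : ℝ, f (p + s • v) = f (p - s • v) := by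
  have hs : ∀ s : ℝ, f (p + s • v) = f (p - s • v) := by
    intro s
    refine sym_of_projective hv (fun s => han _) ?_ hp s
    obtain ⟨R, hR⟩ := hr 1 one_pos
    exact ⟨R, fun s u h1 h2 => hR _ _ h1 h2⟩
  refine ⟨?_, hs⟩
  refine inner_zero (c := fun _ => p) (c' := fun _ => v) (f := f) (fun _ s => hs s) ?_
    (fun _ => hv) 0
  intro δ hδ
  obtain ⟨R, hR⟩ := hr δ hδ
  exact ⟨R, fun z _ w _ h1 h2 => hR z w h1 h2⟩

theorem circle_curve {ρ : ℝ} (hρ : 0 < ρ) :
    ClosedCurve (fun t => (ρ : ℂ) * exp (t * I)) (fun t => (ρ : ℂ) * (exp (t * I) * I)) := by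
  refine ⟨fun t => ?_, fun t => ?_, 2 * Real.pi, by positivity, fun t => ?_⟩
  · have h1 : HasDerivAt (fun t : ℝ => (t : ℂ) * I) I t := by
      simpa using (Complex.ofRealCLM.hasDerivAt (x := t)).mul_const I
    exact (h1.cexp).const_mul (ρ : ℂ)
  · have : (ρ : ℂ) ≠ 0 := ofReal_ne_zero.2 hρ.ne'
    exact mul_ne_zero this (mul_ne_zero (exp_ne_zero _) I_ne_zero)
  · show (ρ : ℂ) * exp (((t + 2 * Real.pi : ℝ) : ℂ) * I) = (ρ : ℂ) * exp (t * I)
    congr 1
    push_cast
    rw [add_mul, exp_add, exp_two_pi_mul_I, mul_one]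

theorem circle_inner (ρ t : ℝ) :
    inner ℝ ((ρ : ℂ) * exp (t * I)) ((ρ : ℂ) * (exp (t * I) * I)) = 0 := by
  rw [Complex.inner]
  have e : (ρ : ℂ) * (exp (t * I) * I) * (starRingEnd ℂ) ((ρ : ℂ) * exp (t * I))
      = ((ρ ^ 2 * normSq (exp (t * I)) : ℝ) : ℂ) * I := by
    rw [map_mul, conj_ofReal]
    push_cast
    rw [Complex.normSq_eq_conj_mul_self]
    ring
  rw [e, re_ofReal_mul, I_re, mul_zero]

/-- the statement in round coordinates -/
theorem arc_round {a b : ℝ} (hab : a < b) (hd : ∀ t ∈ Ioo a b, HasDerivAt c (c' t) t)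
    (hreg : ∀ t ∈ Ioo a b, c' t ≠ 0) (han : ∀ z, AnalyticAt ℝ f z)
    (hr : ∀ δ > 0, ∃ R : ℝ, ∀ z w : ℂ, R ≤ ‖z‖ → f z = f w → |‖z‖ - ‖w‖| < δ)
    (hp : ∀ t ∈ Ioo a b, ProjectiveAt f (c t) (c' t)) :
    ∃ ρ : ℝ, 0 < ρ ∧ (∀ t ∈ Ioo a b, ‖c t‖ = ρ) ∧ ∀ z w, ‖z‖ = ‖w‖ → f z = f w := by
  have hl : ∀ t ∈ Ioo a b, inner ℝ (c t) (c' t) = 0 ∧
      ∀ s : ℝ, f (c t + s • c' t) = f (c t - s • c' t) := fun t ht =>
    line_round (hreg t ht) han hr (hp t ht)
  obtain ⟨t0, ht0⟩ : (Ioo a b).Nonempty := nonempty_Ioo.2 hab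
  have hconst : ∀ t ∈ Ioo a b, ‖c t‖ = ‖c t0‖ := by
    intro t ht
    have h : ∀ t ∈ Ioo a b, HasDerivAt (fun t => ‖c t‖ ^ 2) 0 t := by
      intro t ht
      have := (hd t ht).norm_sq
      rw [(hl t ht).1, mul_zero] at this
      exact this
    have h1 := IsOpen.is_const_of_deriv_eq_zero isOpen_Ioo isPreconnected_Ioo
      (f := fun t => ‖c t‖ ^ 2)
      (fun t ht => (h t ht).differentiableAt.differentiableWithinAt)
      (fun t ht => (h t ht).deriv) ht ht0
    exact (pow_left_inj₀ (norm_nonneg _) (norm_nonneg _) two_ne_zero).1 h1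
  have hρ : 0 < ‖c t0‖ := by
    by_contra hcon
    have hz : ‖c t0‖ = 0 := le_antisymm (not_lt.1 hcon) (norm_nonneg _)
    have h1 : c =ᶠ[𝓝 t0] fun _ => 0 := by
      filter_upwards [isOpen_Ioo.mem_nhds ht0] with t ht
      have := hconst t ht
      rw [hz] at this
      exact norm_eq_zero.1 this
    have h2 := (hd t0 ht0).congr_of_eventuallyEq h1.symm
    exact hreg t0 ht0 (h2.unique (hasDerivAt_const _ _))
  set ρ := ‖c t0‖ with hρdef
  have hc0 : c t0 ≠ 0 := norm_pos_iff.1 hρ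
  -- the symmetry on the whole circle
  have hall : ∀ (s θ : ℝ), f ((ρ : ℂ) * exp (θ * I) * (1 + s * I))
      = f ((ρ : ℂ) * exp (θ * I) * (1 - s * I)) := by
    intro s
    have hA : AnalyticOnNhd ℝ (fun θ : ℝ => f ((ρ : ℂ) * exp (θ * I) * (1 + s * I))) univ := by
      intro θ _
      have h1 : AnalyticAt ℝ (fun θ : ℝ => (ρ : ℂ) * exp (θ * I) * (1 + s * I)) θ := by
        have h2 : AnalyticAt ℝ (fun θ : ℝ => (θ : ℂ) * I) θ :=
          (Complex.ofRealCLM.analyticAt θ).mul analyticAt_const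
        have h3 : AnalyticAt ℝ (fun θ : ℝ => exp ((θ : ℂ) * I)) θ :=
          AnalyticAt.comp (g := exp) (f := fun θ : ℝ => (θ : ℂ) * I)
            (analyticAt_cexp.restrictScalars (𝕜 := ℝ)) h2
        exact (analyticAt_const.mul h3).mul analyticAt_const
      exact AnalyticAt.comp (g := f) (f := fun θ : ℝ => (ρ : ℂ) * exp (θ * I) * (1 + s * I))
        (han _) h1
    have hB : AnalyticOnNhd ℝ (fun θ : ℝ => f ((ρ : ℂ) * exp (θ * I) * (1 - s * I))) univ := by
      intro θ _
      have h1 : AnalyticAt ℝ (fun θ : ℝ => (ρ : ℂ) * exp (θ * I) * (1 - s * I)) θ := by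
        have h2 : AnalyticAt ℝ (fun θ : ℝ => (θ : ℂ) * I) θ :=
          (Complex.ofRealCLM.analyticAt θ).mul analyticAt_const
        have h3 : AnalyticAt ℝ (fun θ : ℝ => exp ((θ : ℂ) * I)) θ :=
          AnalyticAt.comp (g := exp) (f := fun θ : ℝ => (θ : ℂ) * I)
            (analyticAt_cexp.restrictScalars (𝕜 := ℝ)) h2
        exact (analyticAt_const.mul h3).mul analyticAt_const
      exact AnalyticAt.comp (g := f) (f := fun θ : ℝ => (ρ : ℂ) * exp (θ * I) * (1 - s * I))
        (han _) h1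
    set θ0 := arg (c t0) with hθ0
    have hct0 : (ρ : ℂ) * exp (θ0 * I) = c t0 := norm_mul_exp_arg_mul_I (c t0)
    -- angles of the points of the arc
    have hτ : Tendsto (fun t => θ0 + arg (c t / c t0)) (𝓝[≠] t0) (𝓝[≠] θ0) := by
      rw [tendsto_nhdsWithin_iff]
      constructor
      · have h1 : ContinuousAt (fun t => θ0 + arg (c t / c t0)) t0 := by
          have h2 : ContinuousAt (fun t => c t / c t0) t0 :=
            (hd t0 ht0).continuousAt.div_const _
          have h3 : ContinuousAt arg (c t0 / c t0) := by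
            rw [div_self hc0]
            exact continuousAt_arg (by simp [slitPlane])
          exact continuousAt_const.add (ContinuousAt.comp (f := fun t => c t / c t0) h3 h2)
        have h4 := h1.tendsto
        simp only [div_self hc0, arg_one, add_zero] at h4
        exact h4.mono_left nhdsWithin_le_nhds
      · have h1 := (hd t0 ht0).eventually_ne (hreg t0 ht0) (c := c t0)
        have h2 : ∀ᶠ t in 𝓝[≠] t0, t ∈ Ioo a b :=
          nhdsWithin_le_nhds (isOpen_Ioo.mem_nhds ht0)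
        filter_upwards [h1, h2] with t ht1 ht2
        intro hcon
        have h3 : arg (c t / c t0) = 0 := by
          have : θ0 + arg (c t / c t0) = θ0 := hcon
          linarith
        have h4 := norm_mul_exp_arg_mul_I (c t / c t0)
        rw [h3, norm_div, hconst t ht2, div_self hρ.ne'] at h4
        simp at h4
        exact ht1 ((div_eq_one_iff_eq hc0).1 h4.symm)
    have hpt : ∀ t ∈ Ioo a b, (ρ : ℂ) * exp ((θ0 + arg (c t / c t0) : ℝ) * I) = c t := by
      intro t ht
      have h4 := norm_mul_exp_arg_mul_I (c t / c t0)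
      rw [norm_div, hconst t ht, div_self hρ.ne', ofReal_one, one_mul] at h4
      push_cast
      rw [add_mul, exp_add, h4, ← mul_assoc, hct0]
      field_simp
    have hfr : ∃ᶠ θ : ℝ in 𝓝[≠] θ0, f ((ρ : ℂ) * exp (θ * I) * (1 + s * I))
        = f ((ρ : ℂ) * exp (θ * I) * (1 - s * I)) := by
      apply hτ.frequently
      apply Eventually.frequently
      have h2 : ∀ᶠ t in 𝓝[≠] t0, t ∈ Ioo a b :=
        nhdsWithin_le_nhds (isOpen_Ioo.mem_nhds ht0)
      filter_upwards [h2] with t ht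
      rw [hpt t ht]
      have hct : c t ≠ 0 := by
        rw [← norm_pos_iff, hconst t ht]
        exact hρ
      obtain ⟨q, hq, hv⟩ := vel hct (hreg t ht) (hl t ht).1
      have h3 := (hl t ht).2 (s / q)
      have hq' : (q : ℂ) ≠ 0 := ofReal_ne_zero.2 hq
      have e1 : c t + (s / q) • c' t = c t * (1 + s * I) := by
        rw [hv, real_smul]; push_cast; field_simp
      have e2 : c t - (s / q) • c' t = c t * (1 - s * I) := by
        rw [hv, real_smul]; push_cast; field_simp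
      rw [e1, e2] at h3
      exact h3
    have := hA.eqOn_of_preconnected_of_frequently_eq hB isPreconnected_univ (mem_univ θ0) hfr
    intro θ
    exact this (mem_univ θ)
  -- radial outside the circle
  have hcc := circle_curve hρ
  have hn0 : ‖(fun t : ℝ => (ρ : ℂ) * exp (t * I)) 0‖ = ρ := by
    simp [abs_of_pos hρ]
  have hout : ∀ z w, ρ ≤ ‖z‖ → ‖z‖ = ‖w‖ → f z = f w := by
    intro z w hz hzw
    refine radial hcc (circle_inner ρ) ?_ ?_ z w (by rw [hn0]; exact hz) hzw
    · exact fun x _ => (han x).continuousAt.continuousWithinAt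
    · intro t s
      have e1 : (ρ : ℂ) * exp (t * I) + s • ((ρ : ℂ) * (exp (t * I) * I))
          = (ρ : ℂ) * exp (t * I) * (1 + s * I) := by
        rw [real_smul]; ring
      have e2 : (ρ : ℂ) * exp (t * I) - s • ((ρ : ℂ) * (exp (t * I) * I))
          = (ρ : ℂ) * exp (t * I) * (1 - s * I) := by
        rw [real_smul]; ring
      rw [e1, e2]
      exact hall s t
  refine ⟨ρ, hρ, hconst, ?_⟩
  intro z w hzw
  by_cases hz0 : z = 0
  · have : w = 0 := by
      rw [hz0, norm_zero] at hzw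
      exact norm_eq_zero.1 hzw.symm
    rw [hz0, this]
  have hzpos : 0 < ‖z‖ := norm_pos_iff.2 hz0
  have hline : ∀ u : ℂ, AnalyticOnNhd ℝ (fun r : ℝ => f (r • u)) univ := by
    intro u r _
    have h1 : AnalyticAt ℝ (fun r : ℝ => r • u) r := by fun_prop
    exact AnalyticAt.comp (g := f) (f := fun r : ℝ => r • u) (han _) h1
  have hev : (fun r : ℝ => f (r • z)) =ᶠ[𝓝 (ρ / ‖z‖ + 1)] fun r : ℝ => f (r • w) := by
    have h1 : ∀ᶠ r : ℝ in 𝓝 (ρ / ‖z‖ + 1), ρ / ‖z‖ < r := lt_mem_nhds (by linarith)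
    filter_upwards [h1] with r hr
    have hr0 : 0 < r := lt_trans (by positivity) hr
    apply hout
    · rw [norm_smul, Real.norm_of_nonneg hr0.le]
      rw [div_lt_iff₀ hzpos] at hr
      exact hr.le
    · rw [norm_smul, norm_smul, hzw]
  have := (hline z).eqOn_of_preconnected_of_eventuallyEq (hline w) isPreconnected_univ
    (mem_univ _) hev (mem_univ 1)
  simpa using this

end Pool.Agent.U593.AE
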