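import Pool.Agent.U593.AE.Arc

/-!
# An arc of the curve suffices, general ellipses
-/

set_option autoImplicit false

open Filter Topology Complex Set

namespace Pool.Agent.U593.AE

variable {c c' : ℝ → ℂ} {f : ℂ → ℝ}

theorem arc (Λ : ℂ ≃L[ℝ] ℂ) (z₀ : ℂ) {a b : ℝ} (hab : a < b)
    (hd : ∀ t ∈ Ioo a b, HasDerivAt c (c' t) t) (hreg : ∀ t ∈ Ioo a b, c' t ≠ 0)
    (han : ∀ z, AnalyticAt ℝ f z) (hA : Asymptotic Λ z₀ f univ)
    (hp : ∀ t ∈ Ioo a b, ProjectiveAt f (c t) (c' t)) :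
    ∃ ρ : ℝ, 0 < ρ ∧ (∀ t ∈ Ioo a b, ‖Λ (c t - z₀)‖ = ρ) ∧
      ∀ z w, ‖Λ (z - z₀)‖ = ‖Λ (w - z₀)‖ → f z = f w := by
  have hN : ∀ ζ, Λ (Λ.symm ζ + z₀ - z₀) = ζ := by
    intro ζ
    simp
  obtain ⟨ρ, hρ, h1, h2⟩ := arc_round (f := fun ζ => f (Λ.symm ζ + z₀))
    (c := fun t => Λ (c t - z₀)) (c' := fun t => Λ (c' t)) hab
    (fun t ht => (Λ : ℂ →L[ℝ] ℂ).hasFDerivAt.comp_hasDerivAt t ((hd t ht).sub_const z₀))
    (fun t ht h => hreg t ht ((map_eq_zero_iff Λ Λ.injective).1 h))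
    (fun ζ => by
      have h2 : AnalyticAt ℝ (fun ζ : ℂ => Λ.symm ζ + z₀) ζ :=
        ((Λ.symm : ℂ →L[ℝ] ℂ).analyticAt _).add analyticAt_const
      exact AnalyticAt.comp (g := f) (f := fun ζ : ℂ => Λ.symm ζ + z₀) (han _) h2)
    (fun δ hδ => by
      obtain ⟨R, hR⟩ := hA δ hδ
      refine ⟨R, fun ζ ω hζ hfe => ?_⟩
      have := hR (Λ.symm ζ + z₀) (mem_univ _) (Λ.symm ω + z₀) (mem_univ _)
        (by rw [hN]; exact hζ) hfe
      rw [hN, hN] at this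
      exact this)
    (fun t ht => by
      obtain ⟨k, hk⟩ := hp t ht
      refine ⟨k, ?_⟩
      filter_upwards [hk] with s hs
      have e1 : Λ.symm (Λ (c t - z₀) + s • Λ (c' t)) + z₀ = c t + s • c' t := by
        simp only [map_add, map_smul, ContinuousLinearEquiv.symm_apply_apply]
        ring
      have e2 : Λ.symm (Λ (c t - z₀) - (s / (1 + k * s)) • Λ (c' t)) + z₀
          = c t - (s / (1 + k * s)) • c' t := by
        simp only [map_sub, map_smul, ContinuousLinearEquiv.symm_apply_apply]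
        ring
      rw [e1, e2]
      exact hs)
  refine ⟨ρ, hρ, h1, fun z w hzw => ?_⟩
  have := h2 (Λ (z - z₀)) (Λ (w - z₀)) hzw
  simpa using this

end Pool.Agent.U593.AE
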