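import Mathlib

/-!
# Closed curves whose tangent lines are symmetric chords of an almost round function
-/

set_option autoImplicit false

open Filter Topology Complex Set

namespace Pool.Agent.U593.AE

/-- the union of the tangent lines of the curve `c` with velocity `c'` -/
def swept (c c' : ℝ → ℂ) : Set ℂ := {z | ∃ t s : ℝ, z = c t + s • c' t}

/-- `c` is a closed curve with velocity `c' t ≠ 0` -/
structure ClosedCurve (c c' : ℝ → ℂ) : Prop where
  hasDeriv : ∀ t, HasDerivAt c (c' t) t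
  regular : ∀ t, c' t ≠ 0
  closed : ∃ T : ℝ, 0 < T ∧ ∀ t, c (t + T) = c t

variable {c c' : ℝ → ℂ} {f : ℂ → ℝ}

theorem inner_zero
    (hsym : ∀ t s : ℝ, f (c t + s • c' t) = f (c t - s • c' t))
    (hr : ∀ δ > 0, ∃ R : ℝ, ∀ z ∈ swept c c', ∀ w ∈ swept c c', R ≤ ‖z‖ → f z = f w →
      |‖z‖ - ‖w‖| < δ) (hreg : ∀ t, c' t ≠ 0) (t : ℝ) : inner ℝ (c t) (c' t) = 0 := by
  by_contra hL
  set L := inner ℝ (c t) (c' t) with hLdef
  have hv : 0 < ‖c' t‖ := norm_pos_iff.2 (hreg t)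
  have hp : 0 ≤ ‖c t‖ := norm_nonneg _
  have hS : 0 < ‖c t‖ + ‖c' t‖ := by linarith
  have hLpos : 0 < |L| := abs_pos.2 hL
  obtain ⟨R, hR⟩ := hr (2 * |L| / (‖c t‖ + ‖c' t‖)) (by positivity)
  obtain ⟨s, hs1, hs2⟩ : ∃ s : ℝ, 1 ≤ s ∧ (|R| + ‖c t‖) / ‖c' t‖ ≤ s :=
    ⟨max 1 ((|R| + ‖c t‖) / ‖c' t‖), le_max_left _ _, le_max_right _ _⟩
  have hs0 : 0 < s := by linarith
  have hbig : R ≤ ‖c t + s • c' t‖ := by
    have h1 : ‖s • c' t‖ ≤ ‖c t + s • c' t‖ + ‖c t‖ := by
      have : s • c' t = (c t + s • c' t) - c t := by abel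
      calc ‖s • c' t‖ = ‖(c t + s • c' t) - c t‖ := by rw [← this]
        _ ≤ _ := norm_sub_le _ _
    rw [norm_smul, Real.norm_of_nonneg hs0.le] at h1
    rw [div_le_iff₀ hv] at hs2
    have := le_abs_self R
    linarith
  have key := hR (c t + s • c' t) ⟨t, s, rfl⟩ (c t - s • c' t)
    ⟨t, -s, by rw [neg_smul, sub_eq_add_neg]⟩ hbig (hsym t s)
  set a := ‖c t + s • c' t‖
  set b := ‖c t - s • c' t‖
  have ea : a ^ 2 = ‖c t‖ ^ 2 + 2 * (s * L) + s ^ 2 * ‖c' t‖ ^ 2 := by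
    have := norm_add_sq_real (c t) (s • c' t)
    rw [real_inner_smul_right, norm_smul, mul_pow, Real.norm_eq_abs, sq_abs] at this
    exact this
  have eb : b ^ 2 = ‖c t‖ ^ 2 - 2 * (s * L) + s ^ 2 * ‖c' t‖ ^ 2 := by
    have := norm_sub_sq_real (c t) (s • c' t)
    rw [real_inner_smul_right, norm_smul, mul_pow, Real.norm_eq_abs, sq_abs] at this
    exact this
  have ha : a ≤ ‖c t‖ + s * ‖c' t‖ := by
    calc a ≤ ‖c t‖ + ‖s • c' t‖ := norm_add_le _ _
      _ = _ := by rw [norm_smul, Real.norm_of_nonneg hs0.le]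
  have hb : b ≤ ‖c t‖ + s * ‖c' t‖ := by
    calc b ≤ ‖c t‖ + ‖s • c' t‖ := norm_sub_le _ _
      _ = _ := by rw [norm_smul, Real.norm_of_nonneg hs0.le]
  have ha0 : 0 ≤ a := norm_nonneg _
  have hb0 : 0 ≤ b := norm_nonneg _
  have hprod : |a - b| * (a + b) = 4 * s * |L| := by
    have h1 : (a - b) * (a + b) = 4 * s * L := by nlinarith
    have h2 : |(a - b) * (a + b)| = |4 * s * L| := by rw [h1]
    rw [abs_mul, abs_mul, abs_of_nonneg (by linarith : 0 ≤ a + b),
      abs_of_pos (by linarith : 0 < 4 * s)] at h2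
    exact h2
  have hsum : a + b ≤ 2 * s * (‖c t‖ + ‖c' t‖) := by nlinarith
  have h3 : |a - b| * (a + b) ≤ |a - b| * (2 * s * (‖c t‖ + ‖c' t‖)) :=
    mul_le_mul_of_nonneg_left hsum (abs_nonneg _)
  rw [lt_div_iff₀ hS] at key
  have h4 : |a - b| * (2 * s * (‖c t‖ + ‖c' t‖)) < 2 * s * (2 * |L|) := by
    have := mul_lt_mul_of_pos_left key (by linarith : 0 < 2 * s)
    linarith
  linarith

theorem norm_const (hc : ClosedCurve c c') (h0 : ∀ t, inner ℝ (c t) (c' t) = 0) (t : ℝ) :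
    ‖c t‖ = ‖c 0‖ := by
  have h : ∀ t, HasDerivAt (fun t => ‖c t‖ ^ 2) 0 t := by
    intro t
    have := (hc.hasDeriv t).norm_sq
    rw [h0 t, mul_zero] at this
    exact this
  have h1 := is_const_of_deriv_eq_zero (fun t => (h t).differentiableAt) (fun t => (h t).deriv) t 0
  exact (pow_left_inj₀ (norm_nonneg _) (norm_nonneg _) two_ne_zero).1 h1

theorem norm_pos' (hc : ClosedCurve c c') (h0 : ∀ t, inner ℝ (c t) (c' t) = 0) : 0 < ‖c 0‖ := by
  by_contra h
  have hz : ‖c 0‖ = 0 := le_antisymm (not_lt.1 h) (norm_nonneg _)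
  have h1 : c = fun _ => 0 := by
    funext t
    have := norm_const hc h0 t
    rw [hz] at this
    exact norm_eq_zero.1 this
  have h2 := hc.hasDeriv 0
  rw [h1] at h2
  exact hc.regular 0 (h2.unique (hasDerivAt_const _ _))

theorem vel {p v : ℂ} (hp : p ≠ 0) (hv : v ≠ 0) (h : inner ℝ p v = 0) :
    ∃ a : ℝ, a ≠ 0 ∧ v = (a : ℂ) * I * p := by
  rw [Complex.inner] at h
  have hre : p.re * v.re + p.im * v.im = 0 := by
    have h' : v.re * p.re + v.im * p.im = 0 := by simpa [mul_re] using h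
    linarith
  have hn : 0 < p.re ^ 2 + p.im ^ 2 := by
    have : 0 < normSq p := normSq_pos.2 hp
    rw [normSq_apply] at this
    nlinarith
  have hv2 : v = (((p.re * v.im - p.im * v.re) / (p.re ^ 2 + p.im ^ 2) : ℝ) : ℂ) * I * p := by
    apply Complex.ext
    · simp only [mul_re, mul_im, ofReal_re, ofReal_im, I_re, I_im]
      field_simp
      linear_combination p.re * hre
    · simp only [mul_re, mul_im, ofReal_re, ofReal_im, I_re, I_im]
      field_simp
      linear_combination p.im * hre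
  refine ⟨_, ?_, hv2⟩
  intro h0
  rw [h0] at hv2
  simp at hv2
  exact hv hv2

theorem vel' (hc : ClosedCurve c c') (h0 : ∀ t, inner ℝ (c t) (c' t) = 0) (t : ℝ) :
    ∃ a : ℝ, a ≠ 0 ∧ c' t = (a : ℂ) * I * c t := by
  refine vel ?_ (hc.regular t) (h0 t)
  intro h
  have h1 := norm_pos' hc h0
  rw [← norm_const hc h0 t, h, norm_zero] at h1
  exact lt_irrefl _ h1

theorem range_eq (hc : ClosedCurve c c') (h0 : ∀ t, inner ℝ (c t) (c' t) = 0) :
    range c = {z : ℂ | ‖z‖ = ‖c 0‖} := by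
  apply Subset.antisymm
  · rintro _ ⟨t, rfl⟩
    exact norm_const hc h0 t
  intro w hw
  have hw' : ‖w‖ = ‖c 0‖ := hw
  have hρ := norm_pos' hc h0
  have hcont : Continuous c := by
    rw [continuous_iff_continuousAt]
    exact fun t => (hc.hasDeriv t).continuousAt
  obtain ⟨T, hT, hper⟩ := hc.closed
  have hcomp : IsCompact (range c) :=
    Function.Periodic.compact_of_continuous (c := T) hper hT.ne' hcont
  obtain ⟨_, ⟨t0, rfl⟩, hmax⟩ := hcomp.exists_isMaxOn (f := fun z => inner ℝ w z)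
    (range_nonempty c) (by fun_prop)
  have hmax' : ∀ t, inner ℝ w (c t) ≤ inner ℝ w (c t0) := fun t => hmax (mem_range_self t)
  have hd : HasDerivAt (fun t => inner ℝ w (c t)) (inner ℝ w (c' t0)) t0 := by
    have := (hasDerivAt_const t0 w).inner ℝ (hc.hasDeriv t0)
    simpa using this
  have hzero : inner ℝ w (c' t0) = 0 := by
    have : IsLocalMax (fun t => inner ℝ w (c t)) t0 := Filter.Eventually.of_forall hmax'
    exact this.hasDerivAt_eq_zero hd
  obtain ⟨a, ha, hva⟩ := vel' hc h0 t0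
  have him : w.re * (c t0).im - w.im * (c t0).re = 0 := by
    rw [hva, Complex.inner] at hzero
    simp only [mul_re, mul_im, ofReal_re, ofReal_im, I_re, I_im, conj_re, conj_im] at hzero
    have : a * (w.re * (c t0).im - w.im * (c t0).re) = 0 := by linarith
    exact (mul_eq_zero.1 this).resolve_left ha
  have nw : w.re ^ 2 + w.im ^ 2 = ‖c 0‖ ^ 2 := by
    rw [← hw', Complex.sq_norm, normSq_apply]
    ring
  have nc : ∀ t, (c t).re ^ 2 + (c t).im ^ 2 = ‖c 0‖ ^ 2 := by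
    intro t
    rw [← norm_const hc h0 t, Complex.sq_norm, normSq_apply]
    ring
  have hin : ∀ t, inner ℝ w (c t) = w.re * (c t).re + w.im * (c t).im := by
    intro t
    rw [Complex.inner]
    simp [mul_re]
    ring
  have hsq : (w.re * (c t0).re + w.im * (c t0).im) ^ 2 = (‖c 0‖ ^ 2) ^ 2 := by
    have h1 := nc t0
    have : (w.re * (c t0).re + w.im * (c t0).im) ^ 2
      + (w.re * (c t0).im - w.im * (c t0).re) ^ 2
      = (w.re ^ 2 + w.im ^ 2) * ((c t0).re ^ 2 + (c t0).im ^ 2) := by ring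
    rw [him, nw, h1] at this
    nlinarith
  rcases sq_eq_sq_iff_eq_or_eq_neg.1 hsq with h | h
  · refine ⟨t0, ?_⟩
    have h1 := nc t0
    have h2 : ((c t0).re - w.re) ^ 2 + ((c t0).im - w.im) ^ 2 = 0 := by nlinarith
    apply Complex.ext
    · nlinarith [sq_nonneg ((c t0).re - w.re), sq_nonneg ((c t0).im - w.im)]
    · nlinarith [sq_nonneg ((c t0).re - w.re), sq_nonneg ((c t0).im - w.im)]
  · exfalso
    have h1 : c = fun _ => -w := by
      funext t
      have h2 := hmax' t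
      rw [hin, hin, h] at h2
      have h3 := nc t
      have h4 : ((c t).re + w.re) ^ 2 + ((c t).im + w.im) ^ 2 ≤ 0 := by nlinarith
      have h5 : (c t).re + w.re = 0 := by
        nlinarith [sq_nonneg ((c t).re + w.re), sq_nonneg ((c t).im + w.im)]
      have h6 : (c t).im + w.im = 0 := by
        nlinarith [sq_nonneg ((c t).re + w.re), sq_nonneg ((c t).im + w.im)]
      apply Complex.ext
      · simp; linarith
      · simp; linarith
    have h2 := hc.hasDeriv 0
    rw [h1] at h2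
    exact hc.regular 0 (h2.unique (hasDerivAt_const _ _))

/-- every point of the closed exterior is `p (1 + i x)` -/
theorem swept_eq (hc : ClosedCurve c c') (h0 : ∀ t, inner ℝ (c t) (c' t) = 0) :
    swept c c' = {z : ℂ | ‖c 0‖ ≤ ‖z‖} := by
  have hρ := norm_pos' hc h0
  apply Subset.antisymm
  · rintro _ ⟨t, s, rfl⟩
    have h1 := norm_add_sq_real (c t) (s • c' t)
    rw [real_inner_smul_right, h0 t, norm_const hc h0 t] at h1
    have h2 : ‖c 0‖ ^ 2 ≤ ‖c t + s • c' t‖ ^ 2 := by nlinarith [sq_nonneg ‖s • c' t‖]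
    exact (pow_le_pow_iff_left₀ hρ.le (norm_nonneg _) two_ne_zero).1 h2
  · intro z hz
    have hz' : ‖c 0‖ ≤ ‖z‖ := hz
    set x := Real.sqrt (‖z‖ ^ 2 / ‖c 0‖ ^ 2 - 1) with hx
    have hx2 : 1 + x ^ 2 = ‖z‖ ^ 2 / ‖c 0‖ ^ 2 := by
      rw [hx, Real.sq_sqrt]
      · ring
      · rw [sub_nonneg, one_le_div (by positivity)]
        exact pow_le_pow_left₀ hρ.le hz' 2
    have h1x : (1 + x * I : ℂ) ≠ 0 := by
      intro h
      have := congrArg Complex.re h
      simp at this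
    have hn : ‖(1 + x * I : ℂ)‖ = ‖z‖ / ‖c 0‖ := by
      have h1 : ‖(1 + x * I : ℂ)‖ ^ 2 = (‖z‖ / ‖c 0‖) ^ 2 := by
        rw [Complex.sq_norm, normSq_apply, div_pow, ← hx2]
        simp
        ring
      exact (pow_left_inj₀ (norm_nonneg _) (by positivity) two_ne_zero).1 h1
    have hz0 : 0 < ‖z‖ := lt_of_lt_of_le hρ hz'
    have hp : z / (1 + x * I) ∈ range c := by
      rw [range_eq hc h0]
      show ‖z / (1 + x * I)‖ = ‖c 0‖
      rw [norm_div, hn]
      field_simp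
    obtain ⟨t, ht⟩ := hp
    obtain ⟨a, ha, hva⟩ := vel' hc h0 t
    refine ⟨t, x / a, ?_⟩
    rw [hva, real_smul, ht]
    push_cast
    have ha' : (a : ℂ) ≠ 0 := ofReal_ne_zero.2 ha
    field_simp

end Pool.Agent.U593.AE
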