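import Pool.Agent.U593.AE.Final

/-!
# The case of an outer elliptic leaf
-/

set_option autoImplicit false

open Filter Topology Complex Set

namespace Pool.Agent.U593.AE

variable {c c' : ℝ → ℂ} {f : ℂ → ℝ}

/-- near the unit circle the quotient of `1 - ‖z‖²` at two points of a level tends to one -/
def DiscAsymptotic (f : ℂ → ℝ) (E : Set ℂ) : Prop :=
  ∀ ε > 0, ∃ η > 0, ∀ z ∈ E, ∀ w ∈ E, ‖z‖ < 1 → ‖w‖ < 1 → 1 - ‖z‖ ^ 2 < η → f z = f w →
    1 - ‖w‖ ^ 2 < (1 + ε) * (1 - ‖z‖ ^ 2)

/-- one-dimensional statement: `D s = V (β - s) (α + s)` on the chord `(-α, β)` -/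
theorem chord {F : ℝ → ℝ} {α β V k : ℝ} (hα : 0 < α) (hβ : 0 < β) (hV : 0 < V)
    (han : ∀ s, -α < s → s < β → AnalyticAt ℝ F s)
    (hk : ∀ᶠ s : ℝ in 𝓝 0, F s = F (-(s / (1 + k * s))))
    (hD : ∀ ε > 0, ∃ η > 0, ∀ s u, -α < s → s < β → -α < u → u < β →
      V * (β - s) * (α + s) < η → F s = F u →
      V * (β - u) * (α + u) < (1 + ε) * (V * (β - s) * (α + s))) :
    α = β ∧ ∀ s, -α < s → s < α → F s = F (-s) := by
  set S : Set ℝ := {s | -α < s ∧ s < β ∧ 0 < 1 + k * s ∧ s < α * (1 + k * s) ∧
    -s < β * (1 + k * s)} with hS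
  -- `S` is an interval
  have hpre : IsPreconnected S := by
    apply Convex.isPreconnected
    rintro x ⟨a1, a2, a3, a4, a5⟩ y ⟨b1, b2, b3, b4, b5⟩ a b ha hb hab
    have hb' : b = 1 - a := by linarith
    subst hb'
    simp only [smul_eq_mul]
    have hlt : ∀ {u v : ℝ}, 0 < u → 0 < v → 0 < a * u + (1 - a) * v := by
      intro u v hu hv
      rcases ha.eq_or_lt with h | h
      · rw [← h]; linarith
      · have := mul_pos h hu
        have := mul_nonneg hb hv.le
        linarith
    refine ⟨?_, ?_, ?_, ?_, ?_⟩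
    · have := hlt (sub_pos.2 a1) (sub_pos.2 b1); nlinarith
    · have := hlt (sub_pos.2 a2) (sub_pos.2 b2); nlinarith
    · have := hlt a3 b3; nlinarith
    · have := hlt (sub_pos.2 a4) (sub_pos.2 b4); nlinarith
    · have := hlt (sub_pos.2 a5) (sub_pos.2 b5); nlinarith
  have himg : ∀ s ∈ S, -α < -(s / (1 + k * s)) ∧ -(s / (1 + k * s)) < β := by
    rintro s ⟨h1, h2, h3, h4, h5⟩
    constructor
    · rw [neg_lt_neg_iff, div_lt_iff₀ h3]
      exact h4
    · rw [← neg_div, div_lt_iff₀ h3]
      exact h5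
  have hE : EqOn F (fun s => F (-(s / (1 + k * s)))) S := by
    refine AnalyticOnNhd.eqOn_of_preconnected_of_eventuallyEq (z₀ := 0)
      (fun s hs => han s hs.1 hs.2.1) ?_ hpre ?_ hk
    · intro s hs
      have hs' : (1 + k * s) ≠ 0 := hs.2.2.1.ne'
      have h1 : AnalyticAt ℝ (fun s : ℝ => -(s / (1 + k * s))) s :=
        (analyticAt_id.div (analyticAt_const.add (analyticAt_const.mul analyticAt_id)) hs').neg
      exact AnalyticAt.comp (g := F) (f := fun s : ℝ => -(s / (1 + k * s)))
        (han _ (himg s hs).1 (himg s hs).2) h1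
    · refine ⟨by linarith, hβ, by simp, by simpa using hα, by simpa using hβ⟩
  have hcase : β * (1 - k * α) = α := by
    rcases le_or_gt (β * (1 - k * α)) α with hA | hB
    · -- the points `0 < s < β` lie in `S`
      have hmem : ∀ s, 0 < s → s < β → s ∈ S := by
        intro s h0 h1
        have h2 : s < α * (1 + k * s) := by
          rcases le_or_gt (1 - k * α) 0 with h | h
          · nlinarith
          · nlinarith
        have h3 : 0 < 1 + k * s := by
          by_contra h
          nlinarith [not_lt.1 h]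
        exact ⟨by linarith, h1, h3, h2, by nlinarith⟩
      by_contra hne
      have hlt : β * (1 - k * α) < α := lt_of_le_of_ne hA hne
      obtain ⟨η, hη, h1⟩ := hD 1 one_pos
      have c1 : ∀ᶠ s in 𝓝[<] β, V * (β - s) * (α + s) < η := by
        have : ContinuousAt (fun s => V * (β - s) * (α + s)) β := by fun_prop
        have h2 := this.tendsto.eventually_lt_const (u := η) (by simpa using hη)
        exact nhdsWithin_le_nhds h2
      have c2 : ∀ᶠ s in 𝓝[<] β, 2 * (β - s) * (α + s) * (1 + k * s) < β * (α * (1 + k * s) - s) := by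
        have : ContinuousAt (fun s => β * (α * (1 + k * s) - s)
          - 2 * (β - s) * (α + s) * (1 + k * s)) β := by fun_prop
        have h2 := this.tendsto.eventually_const_lt (u := 0) (by
          have : 0 < β * (α * (1 + k * β) - β) := by
            apply mul_pos hβ
            nlinarith
          simpa using this)
        exact nhdsWithin_le_nhds (h2.mono fun s hs => by linarith)
      have c3 : ∀ᶠ s in 𝓝[<] β, s ∈ Ioo 0 β := Ioo_mem_nhdsLT hβ
      obtain ⟨s, h2, h3, h4⟩ := (c1.and (c2.and c3)).exists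
      have hs := hmem s h4.1 h4.2
      have h5 := h1 s (-(s / (1 + k * s))) hs.1 hs.2.1 (himg s hs).1 (himg s hs).2 h2 (hE hs)
      have hpos := hs.2.2.1
      have h6 : V * (β - -(s / (1 + k * s))) * (α + -(s / (1 + k * s))) * (1 + k * s)
          < 2 * (V * (β - s) * (α + s)) * (1 + k * s) := by
        have := mul_lt_mul_of_pos_right h5 hpos
        linarith
      have hne := hpos.ne'
      have h7 : (α + -(s / (1 + k * s))) * (1 + k * s) = α * (1 + k * s) - s := by
        rw [add_mul, neg_mul, div_mul_cancel₀ _ hne]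
        ring
      have h8 : V * β * (α * (1 + k * s) - s)
          ≤ V * (β - -(s / (1 + k * s))) * (α + -(s / (1 + k * s))) * (1 + k * s) := by
        rw [mul_assoc _ _ (1 + k * s), h7]
        have h9 : 0 < s / (1 + k * s) := div_pos h4.1 hpos
        have h10 : 0 < α * (1 + k * s) - s := by linarith [hs.2.2.2.1]
        have : V * β ≤ V * (β - -(s / (1 + k * s))) := by
          apply mul_le_mul_of_nonneg_left _ hV.le
          linarith
        exact mul_le_mul_of_nonneg_right this h10.le
      have h11 := mul_lt_mul_of_pos_left h3 hV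
      nlinarith
    · exfalso
      have hq : 0 < 1 - k * α := by
        by_contra h
        nlinarith [not_lt.1 h]
      set s0 : ℝ := α / (1 - k * α) with hs0
      have hs0pos : 0 < s0 := div_pos hα hq
      have hs0lt : s0 < β := by
        rw [hs0, div_lt_iff₀ hq]
        exact hB
      have hqne := hq.ne'
      have hq0 : 1 + k * s0 = 1 / (1 - k * α) := by
        have : (1 - k * α) * s0 = α := by rw [hs0, mul_div_cancel₀ _ hqne]
        rw [eq_div_iff hqne]
        linear_combination k * this
      have hq1 : 0 < 1 + k * s0 := by rw [hq0]; positivity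
      have hu0 : -(s0 / (1 + k * s0)) = -α := by
        rw [hq0, hs0, div_div_div_cancel_right₀ hqne, div_one]
      have hmem : ∀ s, 0 < s → s < s0 → s ∈ S := by
        intro s h0 h1
        have h2 : s < α * (1 + k * s) := by
          rw [hs0, lt_div_iff₀ hq] at h1
          nlinarith
        have h3 : 0 < 1 + k * s := by
          by_contra h
          nlinarith [not_lt.1 h]
        exact ⟨by linarith, by linarith, h3, h2, by nlinarith⟩
      obtain ⟨η, hη, h1⟩ := hD 1 one_pos
      have hDs0 : 0 < V * (β - s0) * (α + s0) := by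
        apply mul_pos (mul_pos hV (by linarith)) (by linarith)
      have c1 : ∀ᶠ s in 𝓝[<] s0, V * (β - -(s / (1 + k * s))) * (α + -(s / (1 + k * s))) < η := by
        have : ContinuousAt (fun s => V * (β - -(s / (1 + k * s))) * (α + -(s / (1 + k * s)))) s0 := by
          have := hq1.ne'
          fun_prop (disch := assumption)
        have h2 := this.tendsto.eventually_lt_const (u := η) (by rw [hu0]; simpa using hη)
        exact nhdsWithin_le_nhds h2
      have c2 : ∀ᶠ s in 𝓝[<] s0, (1 + 1) * (V * (β - -(s / (1 + k * s))) * (α + -(s / (1 + k * s))))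
          < V * (β - s) * (α + s) := by
        have : ContinuousAt (fun s => V * (β - s) * (α + s)
          - (1 + 1) * (V * (β - -(s / (1 + k * s))) * (α + -(s / (1 + k * s))))) s0 := by
          have := hq1.ne'
          fun_prop (disch := assumption)
        have h2 := this.tendsto.eventually_const_lt (u := 0) (by rw [hu0]; simpa using hDs0)
        exact nhdsWithin_le_nhds (h2.mono fun s hs => by linarith)
      have c3 : ∀ᶠ s in 𝓝[<] s0, s ∈ Ioo 0 s0 := Ioo_mem_nhdsLT hs0pos
      obtain ⟨s, h2, h3, h4⟩ := (c1.and (c2.and c3)).exists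
      have hs := hmem s h4.1 h4.2
      have h5 := h1 (-(s / (1 + k * s))) s (himg s hs).1 (himg s hs).2 hs.1 hs.2.1 h2 (hE hs).symm
      linarith
  -- now `1 + k β = β / α`
  have hkβ : 1 + k * β = β / α := by
    field_simp
    linarith
  have hmem : ∀ s, 0 < s → s < β → s ∈ S := by
    intro s h0 h1
    have hq : 0 < 1 - k * α := by
      by_contra h
      nlinarith [not_lt.1 h]
    have h2 : s < α * (1 + k * s) := by nlinarith
    have h3 : 0 < 1 + k * s := by
      by_contra h
      nlinarith [not_lt.1 h]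
    exact ⟨by linarith, h1, h3, h2, by nlinarith⟩
  have hDu : ∀ s, 0 < s → s < β →
      V * (β - -(s / (1 + k * s))) * (α + -(s / (1 + k * s))) * (1 + k * s) ^ 2
        = V * (β - s) * (α + s) := by
    intro s h0 h1
    have hpos := (hmem s h0 h1).2.2.1
    have hne := hpos.ne'
    have e1 : (β - -(s / (1 + k * s))) * (1 + k * s) = β + (1 + k * β) * s := by
      rw [sub_neg_eq_add, add_mul, div_mul_cancel₀ _ hne]
      ring
    have e2 : (α + -(s / (1 + k * s))) * (1 + k * s) = α - (1 - k * α) * s := by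
      rw [add_mul, neg_mul, div_mul_cancel₀ _ hne]
      ring
    have e3 : (1 - k * α) = α / β := by
      field_simp
      linarith
    calc V * (β - -(s / (1 + k * s))) * (α + -(s / (1 + k * s))) * (1 + k * s) ^ 2
        = V * ((β - -(s / (1 + k * s))) * (1 + k * s)) * ((α + -(s / (1 + k * s))) * (1 + k * s)) := by
          ring
      _ = V * (β - s) * (α + s) := by
          rw [e1, e2, e3, hkβ]
          field_simp
  have hle1 : ∀ ε > 0, 1 ≤ (1 + ε) * (1 + k * β) ^ 2 := by
    intro ε hε
    by_contra hcon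
    rw [not_le] at hcon
    obtain ⟨η, hη, h1⟩ := hD ε hε
    have c1 : ∀ᶠ s in 𝓝[<] β, V * (β - s) * (α + s) < η := by
      have : ContinuousAt (fun s => V * (β - s) * (α + s)) β := by fun_prop
      have h2 := this.tendsto.eventually_lt_const (u := η) (by simpa using hη)
      exact nhdsWithin_le_nhds h2
    have c2 : ∀ᶠ s in 𝓝[<] β, (1 + ε) * (1 + k * s) ^ 2 < 1 := by
      have : ContinuousAt (fun s => (1 + ε) * (1 + k * s) ^ 2) β := by fun_prop
      exact nhdsWithin_le_nhds (this.tendsto.eventually_lt_const hcon)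
    have c3 : ∀ᶠ s in 𝓝[<] β, s ∈ Ioo 0 β := Ioo_mem_nhdsLT hβ
    obtain ⟨s, h2, h3, h4⟩ := (c1.and (c2.and c3)).exists
    have hs := hmem s h4.1 h4.2
    have h5 := h1 s (-(s / (1 + k * s))) hs.1 hs.2.1 (himg s hs).1 (himg s hs).2 h2 (hE hs)
    have h6 := hDu s h4.1 h4.2
    have hDpos : 0 < V * (β - s) * (α + s) :=
      mul_pos (mul_pos hV (by linarith [h4.2])) (by linarith [h4.1])
    have h7 := mul_lt_mul_of_pos_right h5 (pow_pos hs.2.2.1 2)
    rw [h6] at h7
    have h8 : (1 + ε) * (V * (β - s) * (α + s)) * (1 + k * s) ^ 2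
        = (V * (β - s) * (α + s)) * ((1 + ε) * (1 + k * s) ^ 2) := by ring
    rw [h8] at h7
    have h9 := mul_lt_mul_of_pos_left h3 hDpos
    linarith
  have hle2 : ∀ ε > 0, (1 + k * β) ^ 2 ≤ 1 + ε := by
    intro ε hε
    by_contra hcon
    rw [not_le] at hcon
    obtain ⟨η, hη, h1⟩ := hD ε hε
    have hkβ0 : 0 < 1 + k * β := by rw [hkβ]; positivity
    have c1 : ∀ᶠ s in 𝓝[<] β, V * (β - s) * (α + s) / (1 + k * s) ^ 2 < η := by
      have : ContinuousAt (fun s => V * (β - s) * (α + s) / (1 + k * s) ^ 2) β := by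
        have : (1 + k * β) ^ 2 ≠ 0 := (pow_pos hkβ0 2).ne'
        fun_prop (disch := assumption)
      have h2 := this.tendsto.eventually_lt_const (u := η) (by simpa using hη)
      exact nhdsWithin_le_nhds h2
    have c2 : ∀ᶠ s in 𝓝[<] β, 1 + ε < (1 + k * s) ^ 2 := by
      have : ContinuousAt (fun s => (1 + k * s) ^ 2) β := by fun_prop
      exact nhdsWithin_le_nhds (this.tendsto.eventually_const_lt hcon)
    have c3 : ∀ᶠ s in 𝓝[<] β, s ∈ Ioo 0 β := Ioo_mem_nhdsLT hβ
    obtain ⟨s, h2, h3, h4⟩ := (c1.and (c2.and c3)).exists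
    have hs := hmem s h4.1 h4.2
    have h6 := hDu s h4.1 h4.2
    have hp2 : 0 < (1 + k * s) ^ 2 := pow_pos hs.2.2.1 2
    have h6' : V * (β - -(s / (1 + k * s))) * (α + -(s / (1 + k * s)))
        = V * (β - s) * (α + s) / (1 + k * s) ^ 2 := by
      rw [eq_div_iff hp2.ne']
      exact h6
    have h5 := h1 (-(s / (1 + k * s))) s (himg s hs).1 (himg s hs).2 hs.1 hs.2.1
      (by rw [h6']; exact h2) (hE hs).symm
    have hDpos : 0 < V * (β - s) * (α + s) :=
      mul_pos (mul_pos hV (by linarith [h4.2])) (by linarith [h4.1])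
    rw [h6', ← mul_div_assoc, lt_div_iff₀ hp2, mul_comm (1 + ε)] at h5
    have h7 := lt_of_mul_lt_mul_left h5 hDpos.le
    linarith
  have h1 : 1 ≤ (1 + k * β) ^ 2 := by
    by_contra h
    rw [not_le] at h
    have hx : 0 ≤ (1 + k * β) ^ 2 := sq_nonneg _
    have := hle1 ((1 - (1 + k * β) ^ 2) / 2) (by linarith)
    nlinarith
  have h2 : (1 + k * β) ^ 2 ≤ 1 := by
    by_contra h
    rw [not_le] at h
    have := hle2 (((1 + k * β) ^ 2 - 1) / 2) (by linarith)
    linarith
  have h3 : 1 + k * β = 1 := by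
    have hkβ0 : 0 < 1 + k * β := by rw [hkβ]; positivity
    nlinarith
  have hk0 : k = 0 := by
    have : k * β = 0 := by linarith
    exact (mul_eq_zero.1 this).resolve_right hβ.ne'
  have hαβ : α = β := by
    rw [hk0] at hcase
    linarith
  refine ⟨hαβ, fun s hs1 hs2 => ?_⟩
  have hs : s ∈ S := by
    rw [hS]
    refine ⟨hs1, by linarith, ?_, ?_, ?_⟩ <;> rw [hk0] <;> linarith
  have := hE hs
  simp only [hk0, zero_mul, add_zero, div_one] at this
  exact this

end Pool.Agent.U593.AE
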