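import Pool.Agent.U593.AE.Disc

/-!
# The case of an outer elliptic leaf, main theorem
-/

set_option autoImplicit false

open Filter Topology Complex Set

namespace Pool.Agent.U593.AE

variable {c c' : ℝ → ℂ} {f : ℂ → ℝ}

/-- the tangent chord -/
theorem chord_disc {p v : ℂ} {E : Set ℂ} (hp1 : ‖p‖ < 1) (hv : v ≠ 0)
    (hE : ∀ s : ℝ, p + s • v ∈ E)
    (han : ∀ s : ℝ, ‖p + s • v‖ < 1 → AnalyticAt ℝ f (p + s • v))
    (hA : DiscAsymptotic f E) (hp : ProjectiveAt f p v) :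
    inner ℝ p v = 0 ∧ ∀ s : ℝ, ‖p + s • v‖ < 1 → f (p + s • v) = f (p - s • v) := by
  set L := inner ℝ p v with hL
  set V := ‖v‖ ^ 2 with hV
  set W := 1 - ‖p‖ ^ 2 with hW
  have hVpos : 0 < V := by have := norm_pos_iff.2 hv; positivity
  have hWpos : 0 < W := by
    have := norm_nonneg p
    rw [hW]
    nlinarith
  set Δ := Real.sqrt (L ^ 2 + V * W) with hΔ
  have hΔ2 : Δ ^ 2 = L ^ 2 + V * W := Real.sq_sqrt (by positivity)
  have hΔ0 : 0 ≤ Δ := Real.sqrt_nonneg _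
  have hVW : 0 < V * W := mul_pos hVpos hWpos
  have hΔL : |L| < Δ := by
    apply Real.lt_sqrt_of_sq_lt
    rw [sq_abs]
    linarith
  have hab := abs_lt.1 hΔL
  set β := (Δ - L) / V with hβ
  set α := (Δ + L) / V with hα
  have hβpos : 0 < β := div_pos (by linarith [hab.2]) hVpos
  have hαpos : 0 < α := div_pos (by linarith [hab.1]) hVpos
  have hn : ∀ s : ℝ, ‖p + s • v‖ ^ 2 = ‖p‖ ^ 2 + 2 * (s * L) + s ^ 2 * V := by
    intro s
    have := norm_add_sq_real p (s • v)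
    rw [real_inner_smul_right, norm_smul, mul_pow, Real.norm_eq_abs, sq_abs] at this
    exact this
  have hVα : V * α = Δ + L := by rw [hα]; field_simp
  have hVβ : V * β = Δ - L := by rw [hβ]; field_simp
  have hDs : ∀ s : ℝ, 1 - ‖p + s • v‖ ^ 2 = V * (β - s) * (α + s) := by
    intro s
    rw [hn]
    have h1 : V * (V * (β - s) * (α + s)) = (V * β - V * s) * (V * α + V * s) := by ring
    rw [hVα, hVβ] at h1
    have h2 : V * (1 - (‖p‖ ^ 2 + 2 * (s * L) + s ^ 2 * V))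
        = (Δ - L - V * s) * (Δ + L + V * s) := by
      have : (Δ - L - V * s) * (Δ + L + V * s) = Δ ^ 2 - (L + V * s) ^ 2 := by ring
      rw [this, hΔ2, hW]
      ring
    exact mul_left_cancel₀ hVpos.ne' (h2.trans h1.symm)
  have hin : ∀ s : ℝ, -α < s → s < β → ‖p + s • v‖ < 1 := by
    intro s h1 h2
    have : 0 < V * (β - s) * (α + s) :=
      mul_pos (mul_pos hVpos (by linarith)) (by linarith)
    rw [← hDs] at this
    have := norm_nonneg (p + s • v)
    nlinarith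
  have hin' : ∀ s : ℝ, ‖p + s • v‖ < 1 → -α < s ∧ s < β := by
    intro s h
    have h0 := norm_nonneg (p + s • v)
    have h1 : 0 < 1 - ‖p + s • v‖ ^ 2 := by nlinarith
    rw [hDs, mul_assoc] at h1
    have h2 : 0 < (β - s) * (α + s) := (mul_pos_iff_of_pos_left hVpos).1 h1
    rcases mul_pos_iff.1 h2 with ⟨a, b⟩ | ⟨a, b⟩
    · exact ⟨by linarith, by linarith⟩
    · exfalso; linarith
  obtain ⟨k, hk⟩ := hp
  have hneg : ∀ u : ℝ, p - u • v = p + (-u) • v := by
    intro u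
    rw [neg_smul, sub_eq_add_neg]
  have key := chord (F := fun s : ℝ => f (p + s • v)) (k := k) hαpos hβpos hVpos ?_ ?_ ?_
  · obtain ⟨h1, h2⟩ := key
    have hL0 : L = 0 := by
      have : V * α = V * β := by rw [h1]
      rw [hVα, hVβ] at this
      linarith
    refine ⟨hL0, fun s hs => ?_⟩
    obtain ⟨h3, h4⟩ := hin' s hs
    rw [hneg]
    exact h2 s h3 (by rw [h1]; exact h4)
  · intro s h1 h2
    have h3 : AnalyticAt ℝ (fun s : ℝ => p + s • v) s := by fun_prop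
    exact AnalyticAt.comp (g := f) (f := fun s : ℝ => p + s • v) (han s (hin s h1 h2)) h3
  · filter_upwards [hk] with s hs
    rw [← hneg]
    exact hs
  · intro ε hε
    obtain ⟨η, hη, h⟩ := hA ε hε
    refine ⟨η, hη, fun s u h1 h2 h3 h4 h5 h6 => ?_⟩
    have := h (p + s • v) (hE s) (p + u • v) (hE u) (hin s h1 h2) (hin u h3 h4)
      (by rw [hDs]; exact h5) h6
    rw [hDs, hDs] at this
    exact this

theorem disc (hc : ClosedCurve c c') (hin : ∀ t, ‖c t‖ < 1)
    (han : ∀ z ∈ swept c c', ‖z‖ < 1 → AnalyticAt ℝ f z)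
    (hA : DiscAsymptotic f (swept c c')) (hp : ∀ t, ProjectiveAt f (c t) (c' t)) :
    ∃ ρ : ℝ, 0 < ρ ∧ ρ < 1 ∧ range c = {z | ‖z‖ = ρ} ∧
      ∀ z w, ρ ≤ ‖z‖ → ‖z‖ < 1 → ‖z‖ = ‖w‖ → f z = f w := by
  have hch : ∀ t, inner ℝ (c t) (c' t) = 0 ∧
      ∀ s : ℝ, ‖c t + s • c' t‖ < 1 → f (c t + s • c' t) = f (c t - s • c' t) := fun t =>
    chord_disc (E := swept c c') (hin t) (hc.regular t) (fun s => ⟨t, s, rfl⟩) (fun s hs => han _ ⟨t, s, rfl⟩ hs)
      hA (hp t)
  have h0 : ∀ t, inner ℝ (c t) (c' t) = 0 := fun t => (hch t).1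
  refine ⟨‖c 0‖, norm_pos' hc h0, hin 0, range_eq hc h0, fun z w hz hz1 hzw => ?_⟩
  set M := (1 + ‖z‖) / 2 with hM
  have hM1 : M < 1 := by rw [hM]; linarith
  have hMz : ‖z‖ < M := by rw [hM]; linarith
  have hrad := radial (f := fun x => max 0 (M - ‖x‖) * f x) hc h0 ?_ ?_ z w hz hzw
  · have h1 : max 0 (M - ‖z‖) = M - ‖z‖ := max_eq_right (by linarith)
    have h2 : max 0 (M - ‖w‖) = M - ‖w‖ := max_eq_right (by rw [← hzw]; linarith)
    simp only [h1, h2] at hrad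
    rw [← hzw] at hrad
    exact mul_left_cancel₀ (by linarith : M - ‖z‖ ≠ 0) hrad
  · intro x hx
    apply ContinuousAt.continuousWithinAt
    rcases lt_or_ge ‖x‖ 1 with h | h
    · have h1 : ContinuousAt (fun x : ℂ => max 0 (M - ‖x‖)) x := by fun_prop
      exact h1.mul (han x hx h).continuousAt
    · have h1 : ∀ᶠ y in 𝓝 x, M < ‖y‖ :=
        (continuous_norm.continuousAt (x := x)).tendsto.eventually_const_lt (by linarith)
      have h2 : (fun x => max 0 (M - ‖x‖) * f x) =ᶠ[𝓝 x] fun _ => (0 : ℝ) := by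
        filter_upwards [h1] with y hy
        rw [max_eq_left (by linarith), zero_mul]
      exact continuousAt_const.congr h2.symm
  · intro t s
    have hn : ‖c t + s • c' t‖ = ‖c t - s • c' t‖ := by
      have h1 := norm_add_sq_real (c t) (s • c' t)
      have h2 := norm_sub_sq_real (c t) (s • c' t)
      rw [real_inner_smul_right, h0 t] at h1 h2
      have h3 : ‖c t + s • c' t‖ ^ 2 = ‖c t - s • c' t‖ ^ 2 := by rw [h1, h2]; ring
      exact (pow_left_inj₀ (norm_nonneg _) (norm_nonneg _) two_ne_zero).1 h3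
    rcases lt_or_ge ‖c t + s • c' t‖ 1 with h | h
    · show max 0 (M - ‖c t + s • c' t‖) * f _ = max 0 (M - ‖c t - s • c' t‖) * f _
      rw [← hn, (hch t).2 s h]
    · show max 0 (M - ‖c t + s • c' t‖) * f _ = max 0 (M - ‖c t - s • c' t‖) * f _
      rw [← hn, max_eq_left (by linarith), zero_mul, zero_mul]

/-- first order data on the outer leaf suffice -/
theorem discAsymptotic_of_normal {h : ℂ → ℝ} {κ : ℝ} (hh : ContinuousOn h (Metric.closedBall 0 1))
    (hpos : ∀ z : ℂ, ‖z‖ ≤ 1 → 0 < h z) (hκ : ∀ z : ℂ, ‖z‖ = 1 → h z = κ)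
    (hf : ∀ z : ℂ, ‖z‖ < 1 → f z = (1 - ‖z‖ ^ 2) * h z) (E : Set ℂ) : DiscAsymptotic f E := by
  intro ε hε
  have hκpos : 0 < κ := by
    rw [← hκ 1 (by simp)]
    exact hpos 1 (by simp)
  have hcomp : IsCompact (Metric.closedBall (0 : ℂ) 1) := isCompact_closedBall _ _
  have hne : (Metric.closedBall (0 : ℂ) 1).Nonempty := ⟨0, by simp⟩
  obtain ⟨x0, hx0, hmin⟩ := hcomp.exists_isMinOn hne hh
  obtain ⟨x1, hx1, hmax⟩ := hcomp.exists_isMaxOn hne hh
  have hm : 0 < h x0 := hpos x0 (by simpa using hx0)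
  have hMm : 0 < h x1 := hpos x1 (by simpa using hx1)
  have huc := hcomp.uniformContinuousOn_of_continuous hh
  rw [Metric.uniformContinuousOn_iff] at huc
  set e := ε / (3 + ε) with he
  have hepos : 0 < e := by positivity
  have he1 : e < 1 := by rw [he, div_lt_one (by linarith)]; linarith
  obtain ⟨η1, hη1, hu⟩ := huc (e * κ) (by positivity)
  have hnear : ∀ z : ℂ, ‖z‖ < 1 → 1 - ‖z‖ ^ 2 < min η1 1 → |h z - κ| < e * κ := by
    intro z hz hz2
    have hz2' := lt_min_iff.1 hz2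
    have hn0 := norm_nonneg z
    have hzpos : 0 < ‖z‖ := by
      by_contra hcon
      have : ‖z‖ = 0 := le_antisymm (not_lt.1 hcon) hn0
      rw [this] at hz2'
      norm_num at hz2'
    set y : ℂ := ((‖z‖⁻¹ : ℝ) : ℂ) * z with hy
    have hyn : ‖y‖ = 1 := by
      rw [hy, norm_mul, norm_real, Real.norm_of_nonneg (by positivity)]
      field_simp
    have hd : dist z y < η1 := by
      have e1 : z - y = ((1 - ‖z‖⁻¹ : ℝ) : ℂ) * z := by
        rw [hy]; push_cast; ring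
      rw [dist_eq_norm, e1, norm_mul, norm_real, Real.norm_eq_abs]
      have h1 : 1 ≤ ‖z‖⁻¹ := (one_le_inv₀ hzpos).2 hz.le
      rw [abs_of_nonpos (by linarith)]
      have h2 : -(1 - ‖z‖⁻¹) * ‖z‖ = 1 - ‖z‖ := by field_simp; ring
      rw [h2]
      nlinarith
    have := hu z (by simpa using hz.le) y (by simpa using hyn.le) hd
    rw [hκ y hyn, Real.dist_eq] at this
    exact this
  refine ⟨min (min η1 1) (min η1 1 * h x0 / h x1), by positivity, ?_⟩
  intro z _ w _ hz hw hzη hfe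
  have hzη' := lt_min_iff.1 hzη
  rw [hf z hz, hf w hw] at hfe
  have hw0 : 0 < 1 - ‖w‖ ^ 2 := by have := norm_nonneg w; nlinarith
  have hz0 : 0 < 1 - ‖z‖ ^ 2 := by have := norm_nonneg z; nlinarith
  have hhw := hpos w hw.le
  have hhz := hpos z hz.le
  have hmw : h x0 ≤ h w := hmin (by simpa using hw.le)
  have hMz : h z ≤ h x1 := hmax (by simpa using hz.le)
  have hwη : 1 - ‖w‖ ^ 2 < min η1 1 := by
    have h1 : (1 - ‖w‖ ^ 2) * h x0 ≤ (1 - ‖z‖ ^ 2) * h x1 := by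
      calc (1 - ‖w‖ ^ 2) * h x0 ≤ (1 - ‖w‖ ^ 2) * h w := mul_le_mul_of_nonneg_left hmw hw0.le
        _ = (1 - ‖z‖ ^ 2) * h z := hfe.symm
        _ ≤ (1 - ‖z‖ ^ 2) * h x1 := mul_le_mul_of_nonneg_left hMz hz0.le
    have h2 : (1 - ‖z‖ ^ 2) * h x1 < min η1 1 * h x0 := by
      have := hzη'.2
      rwa [lt_div_iff₀ hMm] at this
    exact lt_of_mul_lt_mul_right (lt_of_le_of_lt h1 h2) hm.le
  have nz := abs_lt.1 (hnear z hz hzη'.1)
  have nw := abs_lt.1 (hnear w hw hwη)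
  have h1 : h z < (1 + ε) * h w := by
    have h2 : (1 + e) * κ < (1 + ε) * ((1 - e) * κ) := by
      have h3 : e * (2 + ε) < ε := by
        rw [he, div_mul_eq_mul_div, div_lt_iff₀ (by linarith)]
        nlinarith
      nlinarith
    have h4 : (1 + ε) * ((1 - e) * κ) < (1 + ε) * h w := by
      apply mul_lt_mul_of_pos_left _ (by linarith)
      linarith [nw.1]
    linarith [nz.2]
  have h5 : (1 - ‖w‖ ^ 2) * h w < ((1 + ε) * (1 - ‖z‖ ^ 2)) * h w := by
    rw [← hfe]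
    have := mul_lt_mul_of_pos_left h1 hz0
    linarith
  exact lt_of_mul_lt_mul_right h5 hhw.le

end Pool.Agent.U593.AE
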