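import Pool.Agent.U593.AE.Rot

/-!
# Projective involutions and asymptotically elliptic level curves
-/

set_option autoImplicit false

open Filter Topology Complex Set

namespace Pool.Agent.U593.AE

/-- the involution of the line `p + s v` exchanging the points of the level curves of `f` near `p`
is projective -/
def ProjectiveAt (f : ℂ → ℝ) (p v : ℂ) : Prop :=
  ∃ k : ℝ, ∀ᶠ s : ℝ in 𝓝 0, f (p + s • v) = f (p - (s / (1 + k * s)) • v)

variable {c c' : ℝ → ℂ} {f : ℂ → ℝ}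

theorem sym_of_projective {p v : ℂ} (hv : v ≠ 0) (han : ∀ s : ℝ, AnalyticAt ℝ f (p + s • v))
    (hr : ∃ R : ℝ, ∀ s u : ℝ, R ≤ ‖p + s • v‖ → f (p + s • v) = f (p + u • v) →
      |‖p + s • v‖ - ‖p + u • v‖| < 1)
    (hp : ProjectiveAt f p v) (s : ℝ) : f (p + s • v) = f (p - s • v) := by
  set F : ℝ → ℝ := fun s => f (p + s • v) with hFdef
  have hF : ∀ s, AnalyticAt ℝ F s := by
    intro s
    have h1 : AnalyticAt ℝ (fun s : ℝ => p + s • v) s := by fun_prop
    exact AnalyticAt.comp (g := f) (f := fun s : ℝ => p + s • v) (han s) h1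
  have hneg : ∀ u : ℝ, F (-u) = f (p - u • v) := by
    intro u
    simp only [hFdef, neg_smul, sub_eq_add_neg]
  obtain ⟨k, hk⟩ := hp
  have hpre : IsPreconnected {s : ℝ | 0 < 1 + k * s} := by
    apply Convex.isPreconnected
    intro x hx y hy a b ha hb hab
    have hx' : 0 < 1 + k * x := hx
    have hy' : 0 < 1 + k * y := hy
    show 0 < 1 + k * (a • x + b • y)
    have e : 1 + k * (a • x + b • y) = a * (1 + k * x) + b * (1 + k * y) := by
      simp only [smul_eq_mul]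
      linear_combination (-1 : ℝ) * hab
    rw [e]
    rcases ha.eq_or_lt with h | h
    · have hb1 : b = 1 := by linarith
      rw [← h, hb1]
      linarith
    · have := mul_pos h hx'
      have := mul_nonneg hb hy'.le
      linarith
  have hE : EqOn F (fun s => F (-(s / (1 + k * s)))) {s : ℝ | 0 < 1 + k * s} := by
    refine AnalyticOnNhd.eqOn_of_preconnected_of_eventuallyEq (z₀ := 0) (fun s _ => hF s) ?_ hpre
      (by simp) ?_
    · intro s hs
      have hs' : (1 + k * s) ≠ 0 := (show 0 < 1 + k * s from hs).ne'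
      have h1 : AnalyticAt ℝ (fun s : ℝ => -(s / (1 + k * s))) s :=
        (analyticAt_id.div (analyticAt_const.add (analyticAt_const.mul analyticAt_id)) hs').neg
      exact (hF _).comp h1
    · filter_upwards [hk] with s hs
      rw [hneg]
      exact hs
  have hk0 : k = 0 := by
    by_contra hk0
    obtain ⟨R, hR⟩ := hr
    have hkpos : 0 < |k| := abs_pos.2 hk0
    have hvpos : 0 < ‖v‖ := norm_pos_iff.2 hv
    set B : ℝ := |R| + 2 * ‖p‖ + ‖v‖ / |k| + 1 with hB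
    have hBpos : 0 < B := by positivity
    set B' : ℝ := |k| * B / ‖v‖ with hB'
    have hB'pos : 0 < B' := by positivity
    set u : ℝ := B' / k with hu
    have hku : k * u = B' := by rw [hu]; field_simp
    have hmem : 0 < 1 + k * u := by rw [hku]; linarith
    have h1 := hE (show u ∈ {s : ℝ | 0 < 1 + k * s} from hmem)
    have h2 : f (p + u • v) = f (p + (-(u / (1 + k * u))) • v) := h1
    have habs : |u| * ‖v‖ = B := by
      rw [hu, abs_div, abs_of_pos hB'pos, hB']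
      field_simp
    have hbig : |R| + ‖p‖ + ‖v‖ / |k| + 1 ≤ ‖p + u • v‖ := by
      have h3 : ‖u • v‖ ≤ ‖p + u • v‖ + ‖p‖ := by
        have e : u • v = (p + u • v) - p := by abel
        calc ‖u • v‖ = ‖(p + u • v) - p‖ := by rw [← e]
          _ ≤ _ := norm_sub_le _ _
      rw [norm_smul, Real.norm_eq_abs, habs] at h3
      linarith
    have hsmall : ‖p + (-(u / (1 + k * u))) • v‖ ≤ ‖p‖ + ‖v‖ / |k| := by
      refine (norm_add_le _ _).trans ?_
      have h4 : ‖(-(u / (1 + k * u))) • v‖ ≤ ‖v‖ / |k| := by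
        rw [norm_smul, Real.norm_eq_abs, abs_neg, abs_div, abs_of_pos hmem, hku, hu, abs_div,
          abs_of_pos hB'pos, div_div, mul_comm (|k|), ← div_div]
        have h5 : B' / (1 + B') ≤ 1 := by
          rw [div_le_one (by linarith)]
          linarith
        rw [div_mul_eq_mul_div]
        apply div_le_div_of_nonneg_right _ hkpos.le
        nlinarith
      linarith
    have h6 := hR u (-(u / (1 + k * u))) (by
      have := le_abs_self R
      have : 0 ≤ ‖v‖ / |k| := by positivity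
      have := norm_nonneg p
      linarith) h2
    have h7 := abs_lt.1 h6
    have := abs_nonneg R
    linarith
  have h := hE (show s ∈ {s : ℝ | 0 < 1 + k * s} by rw [hk0]; simp)
  simp only [hk0, zero_mul, add_zero, div_one] at h
  rw [hneg] at h
  exact h

/-- the conclusion in round coordinates -/
theorem core (hc : ClosedCurve c c') (hcont : ContinuousOn f (swept c c'))
    (hr : ∀ δ > 0, ∃ R : ℝ, ∀ z ∈ swept c c', ∀ w ∈ swept c c', R ≤ ‖z‖ → f z = f w →
      |‖z‖ - ‖w‖| < δ)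
    (hsym : ∀ t s : ℝ, f (c t + s • c' t) = f (c t - s • c' t)) :
    ∃ ρ : ℝ, 0 < ρ ∧ range c = {z | ‖z‖ = ρ} ∧ swept c c' = {z | ρ ≤ ‖z‖} ∧
      ∀ z w, ρ ≤ ‖z‖ → ‖z‖ = ‖w‖ → f z = f w := by
  have h0 := inner_zero hsym hr hc.regular
  exact ⟨‖c 0‖, norm_pos' hc h0, range_eq hc h0, swept_eq hc h0,
    fun z w hz hzw => radial hc h0 hcont hsym z w hz hzw⟩

/-- Points of a level of `f` in `E` far from `z₀` lie near one of the ellipses
`‖Λ (z - z₀)‖ = r`. -/
def Asymptotic (Λ : ℂ ≃L[ℝ] ℂ) (z₀ : ℂ) (f : ℂ → ℝ) (E : Set ℂ) : Prop :=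
  ∀ δ > 0, ∃ R : ℝ, ∀ z ∈ E, ∀ w ∈ E, R ≤ ‖Λ (z - z₀)‖ → f z = f w →
    |‖Λ (z - z₀)‖ - ‖Λ (w - z₀)‖| < δ

/-- the conclusion -/
def Elliptic (Λ : ℂ ≃L[ℝ] ℂ) (z₀ : ℂ) (f : ℂ → ℝ) (c c' : ℝ → ℂ) : Prop :=
  ∃ ρ : ℝ, 0 < ρ ∧ range c = {z | ‖Λ (z - z₀)‖ = ρ} ∧ swept c c' = {z | ρ ≤ ‖Λ (z - z₀)‖} ∧
    ∀ z w, ρ ≤ ‖Λ (z - z₀)‖ → ‖Λ (z - z₀)‖ = ‖Λ (w - z₀)‖ → f z = f w

theorem outer (Λ : ℂ ≃L[ℝ] ℂ) (z₀ : ℂ) (hc : ClosedCurve c c')
    (hA : Asymptotic Λ z₀ f (swept c c')) (hcont : ContinuousOn f (swept c c'))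
    (hsym : ∀ t s : ℝ, f (c t + s • c' t) = f (c t - s • c' t)) : Elliptic Λ z₀ f c c' := by
  set d : ℝ → ℂ := fun t => Λ (c t - z₀) with hd
  set d' : ℝ → ℂ := fun t => Λ (c' t) with hd'
  set g : ℂ → ℝ := fun ζ => f (Λ.symm ζ + z₀) with hg
  have hback : ∀ t s : ℝ, Λ.symm (d t + s • d' t) + z₀ = c t + s • c' t := by
    intro t s
    simp only [hd, hd', map_add, map_smul, ContinuousLinearEquiv.symm_apply_apply]
    ring
  have hback' : ∀ t s : ℝ, Λ.symm (d t - s • d' t) + z₀ = c t - s • c' t := by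
    intro t s
    simp only [hd, hd', map_sub, map_smul, ContinuousLinearEquiv.symm_apply_apply]
    ring
  have hfor : ∀ t s : ℝ, Λ (c t + s • c' t - z₀) = d t + s • d' t := by
    intro t s
    have e : c t + s • c' t - z₀ = (c t - z₀) + s • c' t := by ring
    rw [e, map_add, map_smul]
  have hsw : ∀ ζ, ζ ∈ swept d d' ↔ Λ.symm ζ + z₀ ∈ swept c c' := by
    intro ζ
    constructor
    · rintro ⟨t, s, rfl⟩
      exact ⟨t, s, hback t s⟩
    · rintro ⟨t, s, h⟩
      refine ⟨t, s, ?_⟩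
      rw [← hfor, ← h]
      simp
  have hsw' : ∀ z, z ∈ swept c c' ↔ Λ (z - z₀) ∈ swept d d' := by
    intro z
    rw [hsw]
    simp
  have hdc : ClosedCurve d d' := by
    refine ⟨fun t => ?_, fun t => ?_, ?_⟩
    · exact (Λ : ℂ →L[ℝ] ℂ).hasFDerivAt.comp_hasDerivAt t ((hc.hasDeriv t).sub_const z₀)
    · simp only [hd']
      intro h
      exact hc.regular t ((map_eq_zero_iff Λ Λ.injective).1 h)
    · obtain ⟨T, hT, h⟩ := hc.closed
      exact ⟨T, hT, fun t => by simp only [hd, h]⟩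
  have hN : ∀ ζ, Λ (Λ.symm ζ + z₀ - z₀) = ζ := by
    intro ζ
    simp
  have hc1 : ContinuousOn g (swept d d') := by
    refine ContinuousOn.comp (t := swept c c') hcont (by fun_prop) ?_
    intro ζ hζ
    exact (hsw ζ).1 hζ
  have hc2 : ∀ δ > 0, ∃ R : ℝ, ∀ z ∈ swept d d', ∀ w ∈ swept d d', R ≤ ‖z‖ → g z = g w →
      |‖z‖ - ‖w‖| < δ := by
    intro δ hδ
    obtain ⟨R, hR⟩ := hA δ hδ
    refine ⟨R, fun ζ hζ ω hω hRζ hfe => ?_⟩
    have := hR (Λ.symm ζ + z₀) ((hsw ζ).1 hζ) (Λ.symm ω + z₀) ((hsw ω).1 hω)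
      (by rw [hN]; exact hRζ) hfe
    rw [hN, hN] at this
    exact this
  have hc3 : ∀ t s : ℝ, g (d t + s • d' t) = g (d t - s • d' t) := by
    intro t s
    simp only [hg, hback, hback']
    exact hsym t s
  obtain ⟨ρ, hρ, h1, h2, h3⟩ := core (f := g) hdc hc1 hc2 hc3
  refine ⟨ρ, hρ, ?_, ?_, ?_⟩
  · ext z
    have e : z ∈ range c ↔ Λ (z - z₀) ∈ range d := by
      constructor
      · rintro ⟨t, rfl⟩
        exact ⟨t, rfl⟩
      · rintro ⟨t, ht⟩
        refine ⟨t, ?_⟩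
        have := Λ.injective ht
        linear_combination this
    rw [e, h1]
    rfl
  · ext z
    rw [hsw', h2]
    rfl
  · intro z w hz hzw
    have := h3 (Λ (z - z₀)) (Λ (w - z₀)) hz hzw
    simpa [hg] using this

theorem proj (Λ : ℂ ≃L[ℝ] ℂ) (z₀ : ℂ) (hc : ClosedCurve c c')
    (hA : Asymptotic Λ z₀ f (swept c c')) (han : ∀ z ∈ swept c c', AnalyticAt ℝ f z)
    (hp : ∀ t, ProjectiveAt f (c t) (c' t)) : Elliptic Λ z₀ f c c' := by
  have hcont : ContinuousOn f (swept c c') := fun z hz =>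
    (han z hz).continuousAt.continuousWithinAt
  refine outer Λ z₀ hc hA hcont ?_
  intro t s
  -- transport to round coordinates
  have h := sym_of_projective (f := fun ζ => f (Λ.symm ζ + z₀)) (p := Λ (c t - z₀))
    (v := Λ (c' t)) (fun h => hc.regular t ((map_eq_zero_iff Λ Λ.injective).1 h)) ?_ ?_ ?_ s
  · have e1 : Λ.symm (Λ (c t - z₀) + s • Λ (c' t)) + z₀ = c t + s • c' t := by
      simp only [map_add, map_smul, ContinuousLinearEquiv.symm_apply_apply]
      ring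
    have e2 : Λ.symm (Λ (c t - z₀) - s • Λ (c' t)) + z₀ = c t - s • c' t := by
      simp only [map_sub, map_smul, ContinuousLinearEquiv.symm_apply_apply]
      ring
    simp only [e1, e2] at h
    exact h
  · intro s
    have e1 : Λ.symm (Λ (c t - z₀) + s • Λ (c' t)) + z₀ = c t + s • c' t := by
      simp only [map_add, map_smul, ContinuousLinearEquiv.symm_apply_apply]
      ring
    have h1 : AnalyticAt ℝ f (Λ.symm (Λ (c t - z₀) + s • Λ (c' t)) + z₀) := by
      rw [e1]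
      exact han _ ⟨t, s, rfl⟩
    have h2 : AnalyticAt ℝ (fun ζ : ℂ => Λ.symm ζ + z₀) (Λ (c t - z₀) + s • Λ (c' t)) :=
      ((Λ.symm : ℂ →L[ℝ] ℂ).analyticAt _).add analyticAt_const
    exact AnalyticAt.comp h1 h2
  · obtain ⟨R, hR⟩ := hA 1 one_pos
    refine ⟨R, fun s u h1 h2 => ?_⟩
    have e1 : ∀ s : ℝ, Λ.symm (Λ (c t - z₀) + s • Λ (c' t)) + z₀ = c t + s • c' t := by
      intro s
      simp only [map_add, map_smul, ContinuousLinearEquiv.symm_apply_apply]
      ring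
    have e2 : ∀ s : ℝ, Λ (c t + s • c' t - z₀) = Λ (c t - z₀) + s • Λ (c' t) := by
      intro s
      have e : c t + s • c' t - z₀ = (c t - z₀) + s • c' t := by ring
      rw [e, map_add, map_smul]
    simp only [e1] at h2
    have := hR (c t + s • c' t) ⟨t, s, rfl⟩ (c t + u • c' t) ⟨t, u, rfl⟩
      (by rw [e2]; exact h1) h2
    rw [e2, e2] at this
    exact this
  · obtain ⟨k, hk⟩ := hp t
    refine ⟨k, ?_⟩
    filter_upwards [hk] with s hs
    have e1 : Λ.symm (Λ (c t - z₀) + s • Λ (c' t)) + z₀ = c t + s • c' t := by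
      simp only [map_add, map_smul, ContinuousLinearEquiv.symm_apply_apply]
      ring
    have e2 : Λ.symm (Λ (c t - z₀) - (s / (1 + k * s)) • Λ (c' t)) + z₀
        = c t - (s / (1 + k * s)) • c' t := by
      simp only [map_sub, map_smul, ContinuousLinearEquiv.symm_apply_apply]
      ring
    rw [e1, e2]
    exact hs

/-- functions `q + o(‖z‖)`, `q` a positive definite quadratic polynomial -/
theorem asymptotic_of_littleO (Λ : ℂ ≃L[ℝ] ℂ) (z₀ : ℂ) (hf : Continuous f)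
    (ho : (fun z => f z - ‖Λ (z - z₀)‖ ^ 2) =o[cocompact ℂ] fun z => ‖z‖) (E : Set ℂ) :
    Asymptotic Λ z₀ f E := by
  intro δ hδ
  set L : ℝ := 1 + ‖(Λ.symm : ℂ →L[ℝ] ℂ)‖ + ‖z₀‖ with hL
  have hLpos : 0 < L := by positivity
  have hε : 0 < δ / 2 / L := by positivity
  have hev := ho.def hε
  obtain ⟨t, ht, hts⟩ := mem_cocompact.1 hev
  obtain ⟨K, hK⟩ := ht.exists_bound_of_continuousOn
    (f := fun z => f z - ‖Λ (z - z₀)‖ ^ 2) (by fun_prop)
  have hKall : ∀ z, |f z - ‖Λ (z - z₀)‖ ^ 2| ≤ δ / 2 * (‖Λ (z - z₀)‖ + 1) + |K| := by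
    intro z
    by_cases hz : z ∈ t
    · have := hK z hz
      rw [Real.norm_eq_abs] at this
      have h2 := le_abs_self K
      have : 0 ≤ δ / 2 * (‖Λ (z - z₀)‖ + 1) := by positivity
      linarith
    · have h1 : ‖f z - ‖Λ (z - z₀)‖ ^ 2‖ ≤ δ / 2 / L * ‖‖z‖‖ := hts hz
      rw [Real.norm_eq_abs, norm_norm] at h1
      have h2 : ‖z‖ ≤ L * (‖Λ (z - z₀)‖ + 1) := by
        have e : z = Λ.symm (Λ (z - z₀)) + z₀ := by simp
        have h3 : ‖Λ.symm (Λ (z - z₀))‖ ≤ ‖(Λ.symm : ℂ →L[ℝ] ℂ)‖ * ‖Λ (z - z₀)‖ :=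
          (Λ.symm : ℂ →L[ℝ] ℂ).le_opNorm _
        have h4 : ‖z‖ ≤ ‖Λ.symm (Λ (z - z₀))‖ + ‖z₀‖ := by
          conv_lhs => rw [e]
          exact norm_add_le _ _
        have h5 : 0 ≤ ‖(Λ.symm : ℂ →L[ℝ] ℂ)‖ := norm_nonneg _
        have h6 : 0 ≤ ‖Λ (z - z₀)‖ := norm_nonneg _
        have h7 : 0 ≤ ‖z₀‖ := norm_nonneg _
        rw [hL]
        nlinarith
      have h3 : δ / 2 / L * ‖z‖ ≤ δ / 2 * (‖Λ (z - z₀)‖ + 1) := by
        calc δ / 2 / L * ‖z‖ ≤ δ / 2 / L * (L * (‖Λ (z - z₀)‖ + 1)) :=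
              mul_le_mul_of_nonneg_left h2 hε.le
          _ = _ := by field_simp
      have := abs_nonneg K
      linarith
  refine ⟨(δ + 2 * |K|) / (δ / 2) + 1, fun z _ w _ hz hzw => ?_⟩
  have h1 := abs_le.1 (hKall z)
  have h2 := abs_le.1 (hKall w)
  set a := ‖Λ (z - z₀)‖
  set b := ‖Λ (w - z₀)‖
  have ha : 0 ≤ a := norm_nonneg _
  have hb : 0 ≤ b := norm_nonneg _
  have hd2 : 0 < δ / 2 := by linarith
  have hza : δ + 2 * |K| < δ / 2 * a := by
    have h3 : (δ + 2 * |K|) / (δ / 2) < a := by linarith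
    rw [div_lt_iff₀ hd2] at h3
    linarith
  have h4 : |a - b| * (a + b) ≤ δ / 2 * (a + b) + (δ + 2 * |K|) := by
    have h5 : |a ^ 2 - b ^ 2| ≤ δ / 2 * (a + b) + (δ + 2 * |K|) := by
      rw [abs_le]
      constructor
      · linarith [h1.1, h1.2, h2.1, h2.2]
      · linarith [h1.1, h1.2, h2.1, h2.2]
    have h6 : a ^ 2 - b ^ 2 = (a - b) * (a + b) := by ring
    rw [h6, abs_mul, abs_of_nonneg (by linarith : 0 ≤ a + b)] at h5
    exact h5
  have hapos : 0 < a := by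
    have : 0 ≤ |K| := abs_nonneg K
    by_contra h
    have : a = 0 := le_antisymm (not_lt.1 h) ha
    rw [this] at hza
    linarith
  have h7 : |a - b| * (a + b) < δ * (a + b) := by
    have : 0 ≤ δ / 2 * b := by positivity
    linarith
  exact lt_of_mul_lt_mul_right h7 (by linarith)

end Pool.Agent.U593.AE
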