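import Pool.Agent.U593.AE.Core

/-!
# Irrational rotations: a continuous integral is constant on the circles
-/

set_option autoImplicit false

open Filter Topology Complex Set

namespace Pool.Agent.U593.AE

variable {c c' : ℝ → ℂ} {f : ℂ → ℝ}

/-- `1 + i x` in polar form -/
theorem polar (x : ℝ) : (1 + x * I : ℂ) * (Real.cos (Real.arctan x) : ℂ)
    = exp (Real.arctan x * I) := by
  have hc : 0 < Real.cos (Real.arctan x) := Real.cos_arctan_pos x
  have hs : Real.sin (Real.arctan x) = x * Real.cos (Real.arctan x) := by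
    have := Real.tan_arctan x
    rw [Real.tan_eq_sin_div_cos, div_eq_iff hc.ne'] at this
    exact this
  rw [exp_mul_I, ← ofReal_cos, ← ofReal_sin, hs]
  push_cast
  ring

theorem polar_neg (x : ℝ) : (1 - x * I : ℂ) * (Real.cos (Real.arctan x) : ℂ)
    = exp (-(Real.arctan x) * I) := by
  have := polar (-x)
  rw [Real.arctan_neg, Real.cos_neg, ofReal_neg, ofReal_neg] at this
  rw [← this]
  ring

theorem norm_one_add (x : ℝ) : ‖(1 + x * I : ℂ)‖ = Real.sqrt (1 + x ^ 2) := by
  rw [eq_comm, Real.sqrt_eq_iff_mul_self_eq (by positivity) (norm_nonneg _), ← sq,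
    Complex.sq_norm, normSq_apply]
  simp
  ring

/-- the symmetry of the tangent chords as a rotation of the circle -/
theorem rot_step (hc : ClosedCurve c c') (h0 : ∀ t, inner ℝ (c t) (c' t) = 0)
    (hsym : ∀ t s : ℝ, f (c t + s • c' t) = f (c t - s • c' t)) (x : ℝ) (z : ℂ)
    (hz : ‖z‖ = ‖c 0‖ * Real.sqrt (1 + x ^ 2)) :
    f (z * exp ((-(2 * Real.arctan x) : ℝ) * I)) = f z := by
  have h1x : (1 + x * I : ℂ) ≠ 0 := by
    intro h
    have := congrArg Complex.re h
    simp at this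
  have hp : z / (1 + x * I) ∈ range c := by
    rw [range_eq hc h0]
    show ‖z / (1 + x * I)‖ = ‖c 0‖
    have : 0 < Real.sqrt (1 + x ^ 2) := Real.sqrt_pos.2 (by positivity)
    rw [norm_div, hz, norm_one_add]
    field_simp
  obtain ⟨t, ht⟩ := hp
  obtain ⟨a, ha, hva⟩ := vel' hc h0 t
  have ha' : (a : ℂ) ≠ 0 := ofReal_ne_zero.2 ha
  have h := hsym t (x / a)
  have e1 : c t + (x / a) • c' t = z := by
    rw [hva, real_smul, ht]
    push_cast
    field_simp
  have e2 : c t - (x / a) • c' t = z * exp ((-(2 * Real.arctan x) : ℝ) * I) := by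
    have hcos : (Real.cos (Real.arctan x) : ℂ) ≠ 0 :=
      ofReal_ne_zero.2 (Real.cos_arctan_pos x).ne'
    have e3 : exp ((-(2 * Real.arctan x) : ℝ) * I)
        = exp (-(Real.arctan x) * I) / exp (Real.arctan x * I) := by
      rw [← exp_sub]
      congr 1
      push_cast
      ring
    rw [e3, ← polar, ← polar_neg, hva, real_smul, ht, ofReal_div]
    generalize (Real.cos (Real.arctan x) : ℂ) = κ at hcos
    field_simp
  rw [e1, e2] at h
  exact h.symm

theorem rot_all (hc : ClosedCurve c c') (h0 : ∀ t, inner ℝ (c t) (c' t) = 0)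
    (hcont : ContinuousOn f (swept c c'))
    (hsym : ∀ t s : ℝ, f (c t + s • c' t) = f (c t - s • c' t)) (x : ℝ)
    (hx : Irrational (Real.arctan x / Real.pi)) (φ : ℝ) (z : ℂ)
    (hz : ‖z‖ = ‖c 0‖ * Real.sqrt (1 + x ^ 2)) :
    f (z * exp (φ * I)) = f z := by
  have hn : ∀ (z : ℂ) (φ : ℝ), ‖z * exp (φ * I)‖ = ‖z‖ := by
    intro z φ
    rw [norm_mul, norm_exp_ofReal_mul_I, mul_one]
  let H : AddSubgroup ℝ :=
    { carrier := {φ | ∀ z : ℂ, ‖z‖ = ‖c 0‖ * Real.sqrt (1 + x ^ 2) →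
        f (z * exp (φ * I)) = f z}
      zero_mem' := by
        intro z _
        simp
      add_mem' := by
        intro a b ha hb z hz
        have h1 := hb (z * exp (a * I)) (by rw [hn, hz])
        have h2 := ha z hz
        rw [← h2, ← h1, mul_assoc, ← exp_add]
        congr 2
        push_cast
        ring_nf
      neg_mem' := by
        intro a ha z hz
        have h1 := ha (z * exp ((-a : ℝ) * I)) (by rw [hn, hz])
        rw [← h1, mul_assoc, ← exp_add]
        congr 1
        push_cast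
        ring_nf
        simp }
  have h1 : 2 * Real.arctan x ∈ H := by
    have h2 : -(2 * Real.arctan x) ∈ H := fun z hz => rot_step hc h0 hsym x z hz
    have := H.neg_mem h2
    rwa [neg_neg] at this
  have h2 : 2 * Real.pi ∈ H := by
    intro z _
    push_cast
    rw [exp_two_pi_mul_I, mul_one]
  have hle : AddSubgroup.closure {2 * Real.arctan x, 2 * Real.pi} ≤ H := by
    rw [AddSubgroup.closure_le]
    rintro y (rfl | rfl)
    · exact h1
    · exact h2
  have hdense : Dense (AddSubgroup.closure {2 * Real.arctan x, 2 * Real.pi} : Set ℝ) := by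
    rw [dense_addSubgroupClosure_pair_iff]
    have : 2 * Real.arctan x / (2 * Real.pi) = Real.arctan x / Real.pi := by
      field_simp
    rw [this]
    exact hx
  have hH : Dense (H : Set ℝ) := hdense.mono hle
  have hcl : IsClosed (H : Set ℝ) := by
    have : (H : Set ℝ) = ⋂ (z : ℂ) (_ : ‖z‖ = ‖c 0‖ * Real.sqrt (1 + x ^ 2)),
        {φ : ℝ | f (z * exp (φ * I)) = f z} := by
      ext φ
      simp only [mem_iInter, mem_ofPred_eq]
      rfl
    rw [this]
    refine isClosed_iInter fun z => isClosed_iInter fun hz => ?_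
    refine isClosed_eq ?_ continuous_const
    refine hcont.comp_continuous (by fun_prop) ?_
    intro φ
    rw [swept_eq hc h0]
    show ‖c 0‖ ≤ ‖z * exp (φ * I)‖
    rw [hn, hz]
    have : 1 ≤ Real.sqrt (1 + x ^ 2) := by
      rw [Real.one_le_sqrt]
      nlinarith [sq_nonneg x]
    nlinarith [norm_nonneg (c 0)]
  have : (H : Set ℝ) = univ := by
    rw [← hcl.closure_eq, hH.closure_eq]
  have hφ : φ ∈ (H : Set ℝ) := by rw [this]; trivial
  exact hφ z hz

theorem dense_irr : Dense {x : ℝ | Irrational (Real.arctan x / Real.pi)} := by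
  have hcount : ({x : ℝ | Irrational (Real.arctan x / Real.pi)}ᶜ).Countable := by
    refine Set.Countable.mono ?_ (countable_range fun q : ℚ => Real.tan (q * Real.pi))
    intro x hx
    rw [mem_compl_iff, mem_ofPred_eq, Irrational, not_not] at hx
    obtain ⟨q, hq⟩ := hx
    refine ⟨q, ?_⟩
    show Real.tan (q * Real.pi) = x
    rw [hq, div_mul_cancel₀ _ Real.pi_ne_zero, Real.tan_arctan]
  have := hcount.dense_compl ℝ
  rwa [compl_compl] at this

theorem radial (hc : ClosedCurve c c') (h0 : ∀ t, inner ℝ (c t) (c' t) = 0)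
    (hcont : ContinuousOn f (swept c c'))
    (hsym : ∀ t s : ℝ, f (c t + s • c' t) = f (c t - s • c' t)) (z w : ℂ)
    (hz : ‖c 0‖ ≤ ‖z‖) (hzw : ‖z‖ = ‖w‖) : f z = f w := by
  have hρ := norm_pos' hc h0
  have hz0 : 0 < ‖z‖ := lt_of_lt_of_le hρ hz
  have hw0 : 0 < ‖w‖ := hzw ▸ hz0
  -- unit vectors
  have key : ∀ x : ℝ, f (((‖c 0‖ * Real.sqrt (1 + x ^ 2) / ‖z‖ : ℝ) : ℂ) * z)
      = f (((‖c 0‖ * Real.sqrt (1 + x ^ 2) / ‖w‖ : ℝ) : ℂ) * w) := by
    have hmem : ∀ (u : ℂ) (hu : 0 < ‖u‖) (x : ℝ),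
        ‖(((‖c 0‖ * Real.sqrt (1 + x ^ 2) / ‖u‖ : ℝ) : ℂ) * u)‖
          = ‖c 0‖ * Real.sqrt (1 + x ^ 2) := by
      intro u hu x
      rw [norm_mul, norm_real, Real.norm_of_nonneg (by positivity)]
      field_simp
    have hct : ∀ (u : ℂ) (hu : 0 < ‖u‖), Continuous fun x : ℝ =>
        f (((‖c 0‖ * Real.sqrt (1 + x ^ 2) / ‖u‖ : ℝ) : ℂ) * u) := by
      intro u hu
      refine hcont.comp_continuous (by fun_prop) ?_
      intro x
      rw [swept_eq hc h0]
      show ‖c 0‖ ≤ _
      rw [hmem u hu]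
      have : 1 ≤ Real.sqrt (1 + x ^ 2) := by
        rw [Real.one_le_sqrt]
        nlinarith [sq_nonneg x]
      nlinarith [norm_nonneg (c 0)]
    have := Continuous.ext_on dense_irr (hct z hz0) (hct w hw0) ?_
    · intro x
      exact congrFun this x
    intro x hx
    obtain ⟨φ, hφ⟩ : ∃ φ : ℝ, ((‖c 0‖ * Real.sqrt (1 + x ^ 2) / ‖z‖ : ℝ) : ℂ) * z
        = (((‖c 0‖ * Real.sqrt (1 + x ^ 2) / ‖w‖ : ℝ) : ℂ) * w) * exp (φ * I) := by
      have hzn : z ≠ 0 := norm_pos_iff.1 hz0
      have hwn : w ≠ 0 := norm_pos_iff.1 hw0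
      refine ⟨arg (z / w), ?_⟩
      have h1 : exp (arg (z / w) * I) = z / w := by
        have := norm_mul_exp_arg_mul_I (z / w)
        rw [norm_div, hzw, div_self hw0.ne', ofReal_one, one_mul] at this
        exact this
      rw [h1, hzw]
      field_simp
    show f _ = f _
    rw [hφ]
    exact rot_all hc h0 hcont hsym x hx φ _ (hmem w hw0 x)
  have h := key (Real.sqrt (‖z‖ ^ 2 / ‖c 0‖ ^ 2 - 1))
  have hx2 : 1 + Real.sqrt (‖z‖ ^ 2 / ‖c 0‖ ^ 2 - 1) ^ 2 = (‖z‖ / ‖c 0‖) ^ 2 := by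
    rw [Real.sq_sqrt]
    · rw [div_pow]; ring
    · rw [sub_nonneg, one_le_div (by positivity)]
      exact pow_le_pow_left₀ hρ.le hz 2
  rw [hx2, Real.sqrt_sq (by positivity)] at h
  have e1 : ‖c 0‖ * (‖z‖ / ‖c 0‖) = ‖z‖ := by field_simp
  rw [e1, div_self hz0.ne', ofReal_one, one_mul, hzw, div_self hw0.ne', ofReal_one, one_mul] at h
  exact h

end Pool.Agent.U593.AE
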